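import Pool.Agent.H67R3.FSR.Rigid

set_option autoImplicit false

namespace Pool.Agent.Results.MP_f2f7de_al.FiniteRigidSet

open Pool.Agent.H472R3 Pool.Agent.H67R3.FSR

/-- For every `N ≥ 2` there is a finite set `S` of nonzero geodesic currents on the free group of
rank `N` which is spectrally rigid: if two points of the unprojectivized Outer space have the same
intersection number with every element of `S`, then they are equal. Here the intersection form may
be any function with the properties of the Kapovich and Lustig form (additive, positively homogeneous
and weak-* continuous in the current, with the translation length as the value at a counting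
current); the set `S` does not depend on it. -/
theorem result (N : ℕ) (hN : 2 ≤ N) :
    ∃ S : Finset (Current N), S.card ≤ 8 * N ^ 2 + 4 * N ∧ (∀ μ ∈ S, μ ≠ 0) ∧
      ∀ I : FTree N → Current N → ℝ, IsIntersectionForm I →
        ∀ A B : FTree N, A.InCV → B.InCV → (∀ μ ∈ S, I A μ = I B μ) → A.Same B :=
  exists_finite_rigid N hN

end Pool.Agent.Results.MP_f2f7de_al.FiniteRigidSet
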